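import Pool.Agent.helper35.LV.Spec

/-!
# Project lv (MP_a2a22c_al), row L2C: a vector, `n ≥ 4`
-/

set_option autoImplicit false

namespace Pool.Agent.LV

open Matrix Pool.Agent.H48SL Pool.Agent.UG

lemma L2C_sq {n : ℕ} (y f : Fin n → ℚ) (h : f ⬝ᵥ y = 0) : vecMulVec y f * vecMulVec y f = 0 := by
  rw [vecMulVec_mul_vecMulVec, h, zero_smul]
  ext i j
  simp [vecMulVec_apply]

lemma L2C_pow {n : ℕ} (z : SLZ n) (y f : Fin n → ℚ) (h : f ⬝ᵥ y = 0) (hz : qg z = 1 + vecMulVec y f)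
    (m : ℕ) : qg (z ^ m) = 1 + (m : ℚ) • vecMulVec y f := by
  induction m with
  | zero =>
    rw [pow_zero, qg_one, Nat.cast_zero, zero_smul, add_zero]
  | succ m ih =>
    rw [pow_succ, qg_mul, ih, hz, mul_add, mul_one, add_mul, one_mul, smul_mul_assoc, L2C_sq y f h,
      smul_zero, add_zero, Nat.cast_succ, add_smul, one_smul]
    abel

lemma L2C_zpow {n : ℕ} (z : SLZ n) (y f : Fin n → ℚ) (h : f ⬝ᵥ y = 0)
    (hz : qg z = 1 + vecMulVec y f) (m : ℤ) : qg (z ^ m) = 1 + (m : ℚ) • vecMulVec y f := by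
  obtain ⟨k, rfl | rfl⟩ := m.eq_nat_or_neg
  · rw [zpow_natCast, L2C_pow z y f h hz, Int.cast_natCast]
  · have h1 := L2C_pow z y f h hz k
    have h2 : qg (z ^ k) * qg ((z ^ k)⁻¹) = 1 := qg_mul_inv _
    have h3 : (1 + (((-(k : ℤ) : ℤ)) : ℚ) • vecMulVec y f) * qg (z ^ k) = 1 := by
      rw [h1, mul_add, mul_one, add_mul, one_mul, smul_mul_assoc, mul_smul_comm, L2C_sq y f h,
        smul_zero, smul_zero, add_zero]
      push_cast
      rw [neg_smul, add_assoc, neg_add_cancel, add_zero]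
    rw [_root_.zpow_neg, _root_.zpow_natCast]
    calc qg ((z ^ k)⁻¹) = 1 * qg ((z ^ k)⁻¹) := (one_mul _).symm
      _ = ((1 + (((-(k : ℤ) : ℤ)) : ℚ) • vecMulVec y f) * qg (z ^ k)) * qg ((z ^ k)⁻¹) := by rw [h3]
      _ = (1 + (((-(k : ℤ) : ℤ)) : ℚ) • vecMulVec y f) * (qg (z ^ k) * qg ((z ^ k)⁻¹)) := mul_assoc _ _ _
      _ = _ := by rw [h2, mul_one]

/-- `β` is a multiple of `ψ` -/
lemma L2C_beta (hL2B : L2B_stmt) (n : ℕ) (hn : 4 ≤ n) (H : Subgroup (SLZ n)) (v : Fin n → ℤ)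
    (hv : v ≠ 0) (hP : PV H v) (hK : NoK H v) (ψ : Fin n → ℤ) (hψ : ψ ≠ 0) (hψv : ψ ⬝ᵥ v = 0)
    (h : SLZ n) (hh : h ∈ H) (x : Fin n → ℚ) (hx : castV ψ ⬝ᵥ x = 0) (β : Fin n → ℚ)
    (hβ : β ⬝ᵥ castV v = 0)
    (he : qg h = 1 + vecMulVec x (castV ψ) + vecMulVec (castV v) β) (p : Fin n) (hp : ψ p ≠ 0) :
    β = (β p / (ψ p : ℚ)) • castV ψ := by
  have key : ∀ u : Fin n → ℤ, ψ ⬝ᵥ u = 0 → β ⬝ᵥ castV u = 0 := by
    intro u hu
    obtain ⟨j, hj, g, hg, β', hβ', hge⟩ := hP u ψ hψv hu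
    have h1 := hL2B n hn H v hv hP hK h hh g hg x ((j : ℚ) • castV u) ψ β β' hψ hψv hx (by
      rw [dotProduct_smul, castV_dot, hu]
      simp) hβ hβ' he hge
    rw [dotProduct_smul, smul_eq_mul] at h1
    rcases mul_eq_zero.1 h1 with h2 | h2
    · exfalso
      have : j = 0 := by exact_mod_cast h2
      omega
    · exact h2
  have hpq : (ψ p : ℚ) ≠ 0 := by exact_mod_cast hp
  funext i
  have h1 := key (Pi.single i (ψ p) - Pi.single p (ψ i)) (by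
    rw [dotProduct_sub, dotProduct_single, dotProduct_single]
    ring)
  have h2 : castV (Pi.single i (ψ p) - Pi.single p (ψ i)) =
      (Pi.single i (ψ p : ℚ) - Pi.single p (ψ i : ℚ) : Fin n → ℚ) := by
    funext l
    show (((Pi.single i (ψ p) - Pi.single p (ψ i) : Fin n → ℤ) l : ℤ) : ℚ) = _
    rw [Pi.sub_apply, Pi.sub_apply, Pi.single_apply, Pi.single_apply, Pi.single_apply,
      Pi.single_apply]
    split_ifs <;> push_cast <;> ring
  rw [h2, dotProduct_sub, dotProduct_single, dotProduct_single] at h1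
  show β i = (β p / (ψ p : ℚ)) * (ψ i : ℚ)
  field_simp
  linarith

theorem L2C (hFCQ : FCQ_stmt) (hL2B : L2B_stmt) : L2C_stmt := by
  classical
  intro n hn H hD v hv hP hK
  obtain ⟨r, hr⟩ : ∃ r, v r ≠ 0 := by
    by_contra hc
    push Not at hc
    exact hv (funext hc)
  have hcard : 2 < (Finset.univ.erase r).card := by
    rw [Finset.card_erase_of_mem (Finset.mem_univ r), Finset.card_univ, Fintype.card_fin]
    omega
  obtain ⟨p₁, p₂, p₃, h1, h2, h3, h12, h13, h23⟩ := Finset.two_lt_card_iff.1 hcard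
  have e1 : p₁ ≠ r := Finset.ne_of_mem_erase h1
  have e2 : p₂ ≠ r := Finset.ne_of_mem_erase h2
  have e3 : p₃ ≠ r := Finset.ne_of_mem_erase h3
  let ψ : Fin n → ℤ := Pi.single p₁ (v r) - Pi.single r (v p₁)
  have hψp : ψ p₁ = v r := by
    show (Pi.single p₁ (v r) - Pi.single r (v p₁) : Fin n → ℤ) p₁ = v r
    rw [Pi.sub_apply, Pi.single_eq_same, Pi.single_eq_of_ne e1, sub_zero]
  have hψ2 : ψ p₂ = 0 := by
    show (Pi.single p₁ (v r) - Pi.single r (v p₁) : Fin n → ℤ) p₂ = 0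
    rw [Pi.sub_apply, Pi.single_eq_of_ne h12.symm, Pi.single_eq_of_ne e2, sub_zero]
  have hψ3 : ψ p₃ = 0 := by
    show (Pi.single p₁ (v r) - Pi.single r (v p₁) : Fin n → ℤ) p₃ = 0
    rw [Pi.sub_apply, Pi.single_eq_of_ne h13.symm, Pi.single_eq_of_ne e3, sub_zero]
  have hψ0 : ψ ≠ 0 := by
    intro h
    have := congrFun h p₁
    rw [hψp] at this
    exact hr this
  have hψv : ψ ⬝ᵥ v = 0 := by
    show (Pi.single p₁ (v r) - Pi.single r (v p₁) : Fin n → ℤ) ⬝ᵥ v = 0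
    rw [sub_dotProduct, single_dotProduct, single_dotProduct]
    ring
  have hψx2 : ψ ⬝ᵥ Pi.single p₂ 1 = 0 := by
    rw [dotProduct_single, hψ2, zero_mul]
  have hψx3 : ψ ⬝ᵥ Pi.single p₃ 1 = 0 := by
    rw [dotProduct_single, hψ3, zero_mul]
  obtain ⟨j₁, hj₁, g₁, hg₁, β₁, hβ₁, hge₁⟩ := hP (Pi.single p₂ 1) ψ hψv hψx2
  obtain ⟨j₂, hj₂, g₂, hg₂, β₂, hβ₂, hge₂⟩ := hP (Pi.single p₃ 1) ψ hψv hψx3
  have hψpn : ψ p₁ ≠ 0 := by rw [hψp]; exact hr
  have c1 := L2C_beta hL2B n hn H v hv hP hK ψ hψ0 hψv g₁ hg₁ _ (by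
    rw [dotProduct_smul, castV_dot, hψx2]
    simp) β₁ hβ₁ hge₁ p₁ hψpn
  have c2 := L2C_beta hL2B n hn H v hv hP hK ψ hψ0 hψv g₂ hg₂ _ (by
    rw [dotProduct_smul, castV_dot, hψx3]
    simp) β₂ hβ₂ hge₂ p₁ hψpn
  set a₁ : ℚ := β₁ p₁ / (ψ p₁ : ℚ) with ha₁
  set a₂ : ℚ := β₂ p₁ / (ψ p₁ : ℚ) with ha₂
  set y₁ : Fin n → ℚ := (j₁ : ℚ) • castV (Pi.single p₂ 1) + a₁ • castV v with hy₁
  set y₂ : Fin n → ℚ := (j₂ : ℚ) • castV (Pi.single p₃ 1) + a₂ • castV v with hy₂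
  have k1 : qg g₁ = 1 + vecMulVec y₁ (castV ψ) := by
    rw [hge₁, c1, hy₁]
    ext i l
    simp only [Matrix.add_apply, vecMulVec_apply, Pi.add_apply, Pi.smul_apply, smul_eq_mul]
    ring
  have k2 : qg g₂ = 1 + vecMulVec y₂ (castV ψ) := by
    rw [hge₂, c2, hy₂]
    ext i l
    simp only [Matrix.add_apply, vecMulVec_apply, Pi.add_apply, Pi.smul_apply, smul_eq_mul]
    ring
  have hf1 : castV ψ ⬝ᵥ y₁ = 0 := by
    rw [hy₁, dotProduct_add, dotProduct_smul, dotProduct_smul, castV_dot, castV_dot, hψx2, hψv]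
    simp
  have hf2 : castV ψ ⬝ᵥ y₂ = 0 := by
    rw [hy₂, dotProduct_add, dotProduct_smul, dotProduct_smul, castV_dot, castV_dot, hψx3, hψv]
    simp
  have hvr : (v r : ℚ) ≠ 0 := by exact_mod_cast hr
  have y1r : y₁ r = a₁ * v r := by
    rw [hy₁, castV_single]
    show (j₁ : ℚ) * (Pi.single p₂ 1 : Fin n → ℚ) r + a₁ * (v r : ℚ) = _
    rw [Pi.single_eq_of_ne e2.symm]
    ring
  have y2r : y₂ r = a₂ * v r := by
    rw [hy₂, castV_single]
    show (j₂ : ℚ) * (Pi.single p₃ 1 : Fin n → ℚ) r + a₂ * (v r : ℚ) = _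
    rw [Pi.single_eq_of_ne e3.symm]
    ring
  have y13 : y₁ p₃ = a₁ * v p₃ := by
    rw [hy₁, castV_single]
    show (j₁ : ℚ) * (Pi.single p₂ 1 : Fin n → ℚ) p₃ + a₁ * (v p₃ : ℚ) = _
    rw [Pi.single_eq_of_ne h23.symm]
    ring
  have y23 : y₂ p₃ = j₂ + a₂ * v p₃ := by
    rw [hy₂, castV_single]
    show (j₂ : ℚ) * (Pi.single p₃ 1 : Fin n → ℚ) p₃ + a₂ * (v p₃ : ℚ) = _
    rw [Pi.single_eq_same]
    ring
  have y12 : y₁ p₂ = j₁ + a₁ * v p₂ := by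
    rw [hy₁, castV_single]
    show (j₁ : ℚ) * (Pi.single p₂ 1 : Fin n → ℚ) p₂ + a₁ * (v p₂ : ℚ) = _
    rw [Pi.single_eq_same]
    ring
  have hj1' : (j₁ : ℚ) ≠ 0 := by
    have : j₁ ≠ 0 := by omega
    exact_mod_cast this
  have hj2' : (j₂ : ℚ) ≠ 0 := by
    have : j₂ ≠ 0 := by omega
    exact_mod_cast this
  have hy0 : y₁ ≠ 0 := by
    intro h
    have t1 := congrFun h r
    have t2 := congrFun h p₂
    rw [y1r, Pi.zero_apply] at t1
    rw [y12, Pi.zero_apply] at t2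
    have t3 : a₁ = 0 := by
      rcases mul_eq_zero.1 t1 with t | t
      · exact t
      · exact absurd t hvr
    rw [t3, zero_mul, add_zero] at t2
    exact hj1' t2
  have hf0 : castV ψ ≠ 0 := by
    intro h
    apply hψ0
    apply castV_inj
    rw [h, castV_zero]
  refine hFCQ n (by omega) H hD g₁ hg₁ g₂ hg₂ y₁ (castV ψ) hy0 hf0 hf1 k1 ?_ (Or.inr ?_)
  · rw [k2, add_mulVec, one_mulVec, dotProduct_add, hf1, vecMulVec_mulVec, hf1]
    simp
  · intro k hk m he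
    have hq := congrArg qg he
    rw [L2C_pow g₂ y₂ (castV ψ) hf2 k2, L2C_zpow g₁ y₁ (castV ψ) hf1 k1] at hq
    have hent : ∀ i, (k : ℚ) * y₂ i = (m : ℚ) * y₁ i := by
      intro i
      have t := congrFun (congrFun hq i) p₁
      simp only [Matrix.add_apply, Matrix.smul_apply, vecMulVec_apply, smul_eq_mul] at t
      have t2 : castV ψ p₁ = (v r : ℚ) := by
        show ((ψ p₁ : ℤ) : ℚ) = _
        rw [hψp]
      rw [t2] at t
      have t3 : (k : ℚ) * y₂ i * (v r : ℚ) = (m : ℚ) * y₁ i * (v r : ℚ) := by linarith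
      exact mul_right_cancel₀ hvr t3
    have t1 := hent r
    have t2 := hent p₃
    rw [y1r, y2r] at t1
    rw [y13, y23] at t2
    have t3 : (k : ℚ) * a₂ = m * a₁ := by
      have : ((k : ℚ) * a₂) * v r = (m * a₁) * v r := by linarith
      exact mul_right_cancel₀ hvr this
    have t4 : (k : ℚ) * j₂ = 0 := by
      have : (k : ℚ) * j₂ + ((k : ℚ) * a₂) * v p₃ = (m * a₁) * v p₃ := by linarith
      rw [t3] at this
      linarith
    have hk' : (k : ℚ) ≠ 0 := by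
      have : k ≠ 0 := by omega
      exact_mod_cast this
    rcases mul_eq_zero.1 t4 with t | t
    · exact hk' t
    · exact hj2' t

end Pool.Agent.LV
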